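import Pool.Agent.H.MP_1643f9.A

set_option autoImplicit false
open Real

namespace Pool.Agent.Results.MP_1643f9_gt.Main

noncomputable def g (x : ℝ × ℝ → EuclideanSpace ℝ (Fin 9)) (v w p : ℝ × ℝ) : ℝ :=
  inner ℝ (fderiv ℝ x p v) (fderiv ℝ x p w)

noncomputable def vol (x : ℝ × ℝ → EuclideanSpace ℝ (Fin 9)) (p : ℝ × ℝ) : ℝ :=
  √(g x (1, 0) (1, 0) p * g x (0, 1) (0, 1) p - g x (1, 0) (0, 1) p ^ 2)

noncomputable def Lap (x u : ℝ × ℝ → EuclideanSpace ℝ (Fin 9)) (p : ℝ × ℝ) :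
    EuclideanSpace ℝ (Fin 9) :=
  -((vol x p)⁻¹ •
    (fderiv ℝ (fun q => (vol x q)⁻¹ • (g x (0, 1) (0, 1) q • fderiv ℝ u q (1, 0) -
        g x (1, 0) (0, 1) q • fderiv ℝ u q (0, 1))) p (1, 0) +
      fderiv ℝ (fun q => (vol x q)⁻¹ • (g x (1, 0) (1, 0) q • fderiv ℝ u q (0, 1) -
        g x (1, 0) (0, 1) q • fderiv ℝ u q (1, 0))) p (0, 1)))

open Pool.Agent.H.MP_1643f9

theorem lap (e : Fin 9 → ℝ) (p : ℝ × ℝ) :
    Lap (X 1) (X e) p = X (fun i => Λ i / 7200 * e i) p := by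
  have G : ∀ t, 0 < 2 - sin t ^ 2 := fun t => by nlinarith [sin_sq_le_one t]
  have v : ∀ q, vol (X 1) q = 7200 * (2 - sin q.1 ^ 2) / W q.1 := fun q => by
    have : 0 < W q.1 := sqrt_pos.2 (W1 _)
    rw [vol, g, g, g, (gr q).2.1, (gr q).2.2.1, (gr q).2.2.2, sqrt_eq_iff_mul_self_eq_of_pos
      (div_pos (mul_pos (by norm_num) (G _)) this)]
    field_simp
    ring
  have e1 : (fun q => (vol (X 1) q)⁻¹ • (g (X 1) (0, 1) (0, 1) q • fderiv ℝ (X e) q (1, 0) -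
      g (X 1) (1, 0) (0, 1) q • fderiv ℝ (X e) q (0, 1))) = S (fun i t => e i * A i t) b := by
    ext q i
    have := W0 q.1
    have := (G q.1).ne'
    rw [v, g, g, (gr q).2.2.1, (gr q).2.2.2, (dX e q).1]
    simp [S]
    field_simp
  have e2 : (fun q => (vol (X 1) q)⁻¹ • (g (X 1) (1, 0) (1, 0) q • fderiv ℝ (X e) q (0, 1) -
      g (X 1) (1, 0) (0, 1) q • fderiv ℝ (X e) q (1, 0))) =
      S (fun i t => e i * a i t / W t) B := by
    ext q i
    have := W0 q.1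
    have := (G q.1).ne'
    rw [v, g, g, (gr q).2.2.1, (gr q).2.1, (dX e q).2]
    simp [S]
    field_simp
  rw [Lap, e1, e2, dS (fun i t => (dA i t).const_mul (e i)) db,
    dS (fun i t => ((da i t).const_mul (e i)).fun_div (dW t) (W0 t)) dB, v]
  ext i
  have := W0 p.1
  have := (G p.1).ne'
  simp [S, X]
  field_simp
  ring

theorem result : ∃ (x x₁ x₂ : ℝ × ℝ → EuclideanSpace ℝ (Fin 9)) (l₁ l₂ r : ℝ),
    ContDiff ℝ (⊤ : ℕ∞) x₁ ∧ ContDiff ℝ (⊤ : ℕ∞) x₂ ∧ (∀ p, x p = x₁ p + x₂ p) ∧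
    (∀ p, Function.Injective (fderiv ℝ x p)) ∧
    (∃ p q, x₁ p ≠ x₁ q) ∧ (∃ p q, x₂ p ≠ x₂ q) ∧ l₁ ≠ l₂ ∧
    (∀ p, Lap x x₁ p = l₁ • x₁ p) ∧ (∀ p, Lap x x₂ p = l₂ • x₂ p) ∧
    0 < r ∧ (∀ p, ‖x p‖ = r) ∧
    (∀ (n : EuclideanSpace ℝ (Fin 9)) (d : ℝ), (∀ p, inner ℝ n (x p) = d) → n = 0) ∧
    ∀ p, x (p + (2 * π, 0)) = x p ∧ x (p + (0, 2 * π)) = x p := by
  have h8 : (0 : ℝ) < √3 := by positivity
  refine ⟨X 1, X ![1, 1, 1, 1, 0, 0, 0, 0, 0], X ![0, 0, 0, 0, 1, 1, 1, 1, 1], 1 / 1200, 1 / 400,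
    40, sm _, sm _, fun p => ?_, fun p => (injective_iff_map_eq_zero _).2 fun v h => ?_,
    ⟨(0, 0), (π, 0), fun h => ?_⟩, ⟨(0, 0), (π / 2, 0), fun h => ?_⟩, by norm_num,
    fun p => ?_, fun p => ?_, by norm_num, fun p =>
      (pow_left_inj₀ (norm_nonneg _) (by norm_num) two_ne_zero).1 (gr p).1, fun n d h => ?_,
    fun p => ⟨?_, ?_⟩⟩
  · ext i
    fin_cases i <;> simp [X, S]
  · obtain ⟨-, g1, g2, g3⟩ := gr p
    have G : 0 < 2 - sin p.1 ^ 2 := by nlinarith [sin_sq_le_one p.1]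
    have w := W0 p.1
    rw [show v = v.1 • ((1, 0) : ℝ × ℝ) + v.2 • ((0, 1) : ℝ × ℝ) by simp, map_add, map_smul,
      map_smul] at h
    have h1 := congrArg (inner ℝ (fderiv ℝ (X 1) p (1, 0))) h
    have h2 := congrArg (fun z => inner ℝ z (fderiv ℝ (X 1) p (0, 1))) h
    simp only [inner_add_right, inner_add_left, real_inner_smul_right, real_inner_smul_left, g1, g2,
      g3] at h1 h2
    ext <;> simp_all [G.ne']
  · have := congrArg (fun z => z 0) h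
    simp [X, S, a, b, c, μ] at this
    linarith
  · have := congrArg (fun z => z 8) h
    simp [X, S, a, b, c, μ] at this
    linarith
  · rw [lap]
    ext i
    fin_cases i <;> simp [X, S, Λ] <;> ring
  · rw [lap]
    ext i
    fin_cases i <;> simp [X, S, Λ] <;> ring
  · have H := fun y v => h (y, v)
    simp only [EuclideanSpace.inner_eq_star_dotProduct, dotProduct, X, S, Fin.sum_univ_succ] at H
    simp [a, b, μ, c, W] at H
    have a1 := H 0 0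
    have a2 := H π 0
    have a3 := H (π / 2) 0
    have a4 := H (-(π / 2)) 0
    have a5 := H 0 π
    have a6 := H (π / 2) π
    have a7 := H 0 (π / 2)
    have a8 := H (π / 2) (π / 2)
    have a9 := H 0 (π / 4)
    have a0 := H (π / 2) (π / 8)
    rw [show 5 * π = π + 2 * π + 2 * π by ring] at a5
    rw [show 4 * π = 2 * π + 2 * π by ring] at a6
    rw [show 5 * (π / 2) = π / 2 + 2 * π by ring, show 2 * (π / 2) = π by ring] at a7
    rw [show 4 * (π / 2) = 2 * π by ring] at a8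
    rw [show 2 * (π / 4) = π / 2 by ring] at a9
    rw [show 4 * (π / 8) = π / 2 by ring] at a0
    norm_num at a1 a2 a3 a4 a5 a6 a7 a8 a9 a0
    have z : ∀ {r x : ℝ}, 0 < r → r * x = 0 → x = 0 := fun h k => (mul_eq_zero.1 k).resolve_left h.ne'
    have n8 : n 8 = 0 := by linarith
    have n0 : n 0 = 0 := z h8 (by linarith)
    have n2 : n 2 = 0 := z h8 (by linarith)
    have n4 : n 4 = 0 := z (r := √3 * √8) (by positivity) (by linarith)
    have n6 : n 6 = 0 := z (r := √3 * √5) (by positivity) (by linarith)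
    have n5 : n 5 = 0 := z (r := √3 * √8) (by positivity) (by linarith)
    have n3 : n 3 = 0 := z h8 (by linarith)
    rw [n4, n5] at a9
    rw [n2, n3] at a0
    have n1 : n 1 = 0 := z h8 (by linarith)
    have n7 : n 7 = 0 := z (r := √3 * √5) (by positivity) (by linarith)
    ext i
    fin_cases i
    exacts [n0, n1, n2, n3, n4, n5, n6, n7, n8]
  · simp [X, S, a, W]
  · ext i
    have : ∃ k : ℕ, μ i = k := by
      fin_cases i
      exacts [⟨2, by simp [μ]⟩, ⟨2, by simp [μ]⟩, ⟨1, by simp [μ]⟩, ⟨1, by simp [μ]⟩,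
        ⟨5, by simp [μ]⟩, ⟨5, by simp [μ]⟩, ⟨4, by simp [μ]⟩, ⟨4, by simp [μ]⟩, ⟨0, by simp [μ]⟩]
    obtain ⟨k, hk⟩ := this
    simp [X, S, b, hk, mul_add]

end Pool.Agent.Results.MP_1643f9_gt.Main
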